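import Pool.Agent.H992.SF.Defs

/-!
# SF/INV: the joint law is asymptotically invariant under the translations of one function alone
-/

set_option autoImplicit false
open MeasureTheory Filter Topology Complex ProbabilityTheory
open scoped ContDiff ENNReal

namespace Pool.Agent.H236.SF

open Pool.Agent.W745.RW (TF)
open Pool.Agent.N661.BH (HP)
open Pool.Agent.N814.BHM (P mass)
open Pool.Agent.N814.BHASM (Hyp ex ex_norm ex_meas probz probP)
open Pool.Agent.H992.LB (eX SX fs SX_fs)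
open Pool.Agent.H992.SF

theorem ex_eq {k : ℕ} (lam : ℝ) (u : ℂ → ℝ) (w : Fin k → ℂ) (t : Fin k → ℝ)
    (p : ℂ × (ℝ × Bool)) : ex lam u (fun j => (t j : ℂ)) w p = eX lam u (fs w t) p := by
  unfold eX ex
  rw [SX_fs]

theorem fs_shift {k : ℕ} (w : Fin k → ℂ) (t : Fin k → ℝ) (x : ℂ) :
    fs (fun j => w j + x) t = (fs w t).mapDomain (· + x) := by
  unfold fs
  rw [Finsupp.mapDomain_finsetSum]
  exact Finset.sum_congr rfl fun j _ => by rw [Finsupp.mapDomain_single]

theorem ex_zero {k : ℕ} (lam : ℝ) (u : ℂ → ℝ) (w : Fin k → ℂ) (p : ℂ × (ℝ × Bool)) :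
    ex lam u (fun j => (((0 : Fin k → ℝ) j : ℝ) : ℂ)) w p = 1 := by
  unfold ex
  simp

theorem prod_split {d : ℕ} (i₀ : Fin d) (F : Fin d → ℂ) (hF : ∀ i, i < i₀ → F i = 1) :
    ∏ i, F i = F i₀ * ∏ i ∈ Finset.univ.filter (fun i => i₀ < i), F i := by
  rw [← Finset.mul_prod_erase Finset.univ F (Finset.mem_univ i₀)]
  congr 1
  symm
  apply Finset.prod_subset
  · intro i hi
    rw [Finset.mem_filter] at hi
    rw [Finset.mem_erase]
    exact ⟨ne_of_gt hi.2, Finset.mem_univ _⟩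
  · intro i hi hi2
    rw [Finset.mem_erase] at hi
    rw [Finset.mem_filter, not_and] at hi2
    have h3 := hi2 (Finset.mem_univ _)
    exact hF i (lt_of_le_of_ne (not_lt.mp h3) hi.1)

theorem integ {d : ℕ} {Ω : Set ℂ} {lam : Fin d → ℕ → ℝ} {u : Fin d → ℕ → ℂ → ℝ}
    (H : ∀ i, Hyp Ω (lam i) (u i)) (i₀ : Fin d) {ψ : ℂ → ℝ} (hψ : TF Ω ψ) {k : ℕ}
    (w : Fin d → Fin k → ℂ) (t : Fin d → Fin k → ℝ) (n : ℕ) :
    Integrable (fun p : ℂ × (ℝ × Bool) => (ψ p.1 : ℂ) *
      ∏ i, ex (lam i n) (u i n) (fun j => (t i j : ℂ)) (w i) p) (P Ω) := by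
  have := probz (H i₀)
  have := probP (H i₀)
  obtain ⟨C, hC⟩ := hψ.2.1.exists_bound_of_continuous hψ.1.continuous
  have hm : Measurable (fun p : ℂ × (ℝ × Bool) => (ψ p.1 : ℂ) *
      ∏ i, ex (lam i n) (u i n) (fun j => (t i j : ℂ)) (w i) p) := by
    apply Measurable.mul
    · exact Complex.measurable_ofReal.comp (hψ.1.continuous.measurable.comp measurable_fst)
    · exact Finset.measurable_fun_prod _ fun i _ => ex_meas ((H i).sm n) _ _
  refine Integrable.of_bound hm.aestronglyMeasurable C (Eventually.of_forall fun p => ?_)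
  rw [norm_mul, norm_prod]
  have h1 : ∏ i, ‖ex (lam i n) (u i n) (fun j => (t i j : ℂ)) (w i) p‖ = 1 :=
    Finset.prod_eq_one fun i _ => ex_norm _ _ _ _ _
  rw [h1, mul_one, Complex.norm_real]
  exact hC p.1

theorem inv (h1 : S_LINV) (h2 : S_BRIDGE) : S_INV := by
  intro d Ω lam u H hsep i₀ ψ hψ k w t x ht
  have hd : 0 < d := Fin.pos i₀
  have hS : ∀ i ∈ Finset.univ.filter (fun i => i₀ < i),
      Tendsto (fun n => lam i n / lam i₀ n) atTop (𝓝 0) := by
    intro i hi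
    rw [Finset.mem_filter] at hi
    exact hsep i₀ i hi.2
  have hL := h1 d Ω lam u H i₀ _ hS ψ hψ (fs (w i₀) (t i₀)) x k t w
  have b1 := h2 d Ω lam u H hd ψ hψ k (Function.update w i₀ fun j => w i₀ j + x) t
  have b2 := h2 d Ω lam u H hd ψ hψ k w t
  have hL2 := hL.const_mul (mass Ω : ℂ)
  rw [mul_zero] at hL2
  refine hL2.congr' ?_
  filter_upwards [b1, b2] with n e1 e2
  rw [e1, e2, ← mul_sub, ← integral_sub (integ H i₀ hψ _ t n) (integ H i₀ hψ w t n)]
  congr 1
  refine integral_congr_ae (Eventually.of_forall fun p => ?_)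
  show _ = (ψ p.1 : ℂ) * ∏ i, ex (lam i n) (u i n) (fun j => (t i j : ℂ))
      ((Function.update w i₀ fun j => w i₀ j + x) i) p -
    (ψ p.1 : ℂ) * ∏ i, ex (lam i n) (u i n) (fun j => (t i j : ℂ)) (w i) p
  have hone : ∀ (v : Fin d → Fin k → ℂ) (i : Fin d), i < i₀ →
      ex (lam i n) (u i n) (fun j => (t i j : ℂ)) (v i) p = 1 := by
    intro v i hi
    rw [ht i hi]
    exact ex_zero _ _ _ _
  rw [prod_split i₀ _ (hone _), prod_split i₀ _ (hone w), Function.update_self, ex_eq, ex_eq,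
    fs_shift]
  have e3 : ∏ i ∈ Finset.univ.filter (fun i => i₀ < i), ex (lam i n) (u i n)
      (fun j => (t i j : ℂ)) ((Function.update w i₀ fun j => w i₀ j + x) i) p =
      ∏ i ∈ Finset.univ.filter (fun i => i₀ < i), ex (lam i n) (u i n)
      (fun j => (t i j : ℂ)) (w i) p := by
    apply Finset.prod_congr rfl
    intro i hi
    rw [Finset.mem_filter] at hi
    rw [Function.update_of_ne (ne_of_gt hi.2)]
  rw [e3]
  ring

end Pool.Agent.H236.SF
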